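import Pool.Agent.W207.PU.SpecA

/-! PU-SCH: Schur test for cells. -/

set_option autoImplicit false

namespace Pool.W335.PU

open Finset W207.PU

/-- the weight of a difference of cells -/
noncomputable def ph (R : ℝ) (m : ℕ) : ℝ := (1 + ((m - 1 : ℕ) : ℝ) / R)⁻¹

lemma ph_nonneg {R : ℝ} (hR : 1 ≤ R) (m : ℕ) : 0 ≤ ph R m := by
  unfold ph; positivity

lemma floor_diff (a b : ℝ) : ((((⌊a⌋ - ⌊b⌋).natAbs - 1 : ℕ)) : ℝ) ≤ |a - b| := by
  have h1 := Int.floor_le a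
  have h2 := Int.lt_floor_add_one a
  have h3 := Int.floor_le b
  have h4 := Int.lt_floor_add_one b
  rcases Nat.eq_zero_or_pos (⌊a⌋ - ⌊b⌋).natAbs with h | h
  · rw [h]; simp
  · rw [Nat.cast_sub h]
    have h5 : (((⌊a⌋ - ⌊b⌋).natAbs : ℕ) : ℝ) = |(⌊a⌋ : ℝ) - ⌊b⌋| := by
      rw [Nat.cast_natAbs, Int.cast_abs, Int.cast_sub]
    rw [h5]
    push_cast
    have h6 : |(⌊a⌋ : ℝ) - ⌊b⌋| ≤ |a - b| + 1 := by
      rw [abs_le]
      have h7 := neg_abs_le (a - b)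
      have h8 := le_abs_self (a - b)
      constructor <;> linarith
    linarith

lemma inv_le_ph {R : ℝ} (hR : 1 ≤ R) (a b : ℝ) :
    (1 + |a - b| / R)⁻¹ ≤ ph R (⌊a⌋ - ⌊b⌋).natAbs := by
  unfold ph
  have h0 : (0 : ℝ) < R := by linarith
  refine inv_anti₀ (by positivity) ?_
  have := floor_diff a b
  gcongr

lemma sum_ph {R : ℝ} (hR : 1 ≤ R) (M : ℕ) :
    ∑ m ∈ range (M + 2), ph R m ^ 2 ≤ 2 + R * (1 - (1 + (M : ℝ) / R)⁻¹) := by
  have h0 : (0 : ℝ) < R := by linarith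
  induction M with
  | zero =>
    rw [Finset.sum_range_succ, Finset.sum_range_succ]
    simp [ph]
    norm_num
  | succ M ih =>
    rw [show M + 1 + 2 = (M + 2) + 1 by ring, Finset.sum_range_succ]
    have h1 : ph R (M + 2) = (1 + ((M : ℝ) + 1) / R)⁻¹ := by
      unfold ph
      rw [show M + 2 - 1 = M + 1 by omega]
      push_cast
      rfl
    rw [h1]
    push_cast
    have hA : (0 : ℝ) < 1 + (M : ℝ) / R := by positivity
    have hB : (0 : ℝ) < 1 + ((M : ℝ) + 1) / R := by positivity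
    have h2 : ((1 + ((M : ℝ) + 1) / R)⁻¹) ^ 2 ≤
        R * ((1 + (M : ℝ) / R)⁻¹ - (1 + ((M : ℝ) + 1) / R)⁻¹) := by
      have e1 : R * ((1 + (M : ℝ) / R)⁻¹ - (1 + ((M : ℝ) + 1) / R)⁻¹) =
          (1 + (M : ℝ) / R)⁻¹ * (1 + ((M : ℝ) + 1) / R)⁻¹ := by
        field_simp
        ring
      rw [e1, sq]
      refine mul_le_mul_of_nonneg_right (inv_anti₀ hA ?_) (by positivity)
      gcongr
      linarith
    linarith

lemma sum_ph' {R : ℝ} (hR : 1 ≤ R) (M : ℕ) : ∑ m ∈ range M, ph R m ^ 2 ≤ 3 * R := by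
  have h0 : (0 : ℝ) < R := by linarith
  have h1 : ∑ m ∈ range M, ph R m ^ 2 ≤ ∑ m ∈ range (M + 2), ph R m ^ 2 :=
    Finset.sum_le_sum_of_subset_of_nonneg (Finset.range_subset_range.2 (by omega))
      (fun _ _ _ => sq_nonneg _)
  have h2 := sum_ph hR M
  have h3 : 0 ≤ (1 + (M : ℝ) / R)⁻¹ := by positivity
  nlinarith [mul_nonneg h0.le h3]

lemma sum_int {R : ℝ} (hR : 1 ≤ R) (D : Finset ℤ) (k : ℤ) :
    ∑ l ∈ D, ph R (k - l).natAbs ^ 2 ≤ 6 * R := by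
  classical
  set M := D.sup (fun l => (k - l).natAbs) + 1 with hM
  have h1 : ∀ l ∈ D, (k - l).natAbs ∈ range M := by
    intro l hl
    rw [Finset.mem_range, hM]
    exact Nat.lt_succ_of_le (Finset.le_sup (f := fun l => (k - l).natAbs) hl)
  rw [← Finset.sum_fiberwise_of_maps_to h1]
  have h2 : ∀ m ∈ range M, ∑ l ∈ D with (k - l).natAbs = m, ph R (k - l).natAbs ^ 2 ≤
      2 * ph R m ^ 2 := by
    intro m _
    have e1 : ∑ l ∈ D with (k - l).natAbs = m, ph R (k - l).natAbs ^ 2 =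
        ∑ l ∈ D with (k - l).natAbs = m, ph R m ^ 2 :=
      Finset.sum_congr rfl fun l hl => by rw [(Finset.mem_filter.1 hl).2]
    rw [e1, Finset.sum_const, nsmul_eq_mul]
    have e2 : (D.filter (fun l => (k - l).natAbs = m)).card ≤ 2 := by
      refine (Finset.card_le_card (t := {k - m, k + m}) ?_).trans Finset.card_le_two
      intro l hl
      have := (Finset.mem_filter.1 hl).2
      rw [Finset.mem_insert, Finset.mem_singleton]
      omega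
    have e3 : ((D.filter (fun l => (k - l).natAbs = m)).card : ℝ) ≤ 2 := by exact_mod_cast e2
    exact mul_le_mul_of_nonneg_right e3 (sq_nonneg _)
  refine (Finset.sum_le_sum h2).trans ?_
  rw [← Finset.mul_sum]
  have := sum_ph' hR M
  linarith

lemma sum_int' {R : ℝ} (hR : 1 ≤ R) (D : Finset ℤ) (l : ℤ) :
    ∑ k ∈ D, ph R (k - l).natAbs ^ 2 ≤ 6 * R := by
  have := sum_int hR D l
  refine le_of_eq_of_le (Finset.sum_congr rfl fun k _ => ?_) this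
  rw [← Int.natAbs_neg (k - l), neg_sub]

/-- the sum over a cell -/
noncomputable def cel (Z : Finset ℂ) (x w : ℂ → ℝ) (k : ℤ) : ℝ := ∑ s ∈ Z with ⌊x s⌋ = k, w s

lemma group {R : ℝ} (hR : 1 ≤ R) (O Z : Finset ℂ) (x w : ℂ → ℝ) (hw : ∀ s, 0 ≤ w s) :
    ∑ s ∈ O, ∑ s' ∈ Z, w s * w s' * ((1 + |x s - x s'| / R)⁻¹) ^ 2 ≤
      ∑ k ∈ O.image (fun s => ⌊x s⌋), ∑ l ∈ Z.image (fun s => ⌊x s⌋),
        cel O x w k * cel Z x w l * ph R (k - l).natAbs ^ 2 := by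
  have h0 : (0 : ℝ) < R := by linarith
  have h1 : ∀ s ∈ O, ∀ s' ∈ Z, w s * w s' * ((1 + |x s - x s'| / R)⁻¹) ^ 2 ≤
      w s * w s' * ph R (⌊x s⌋ - ⌊x s'⌋).natAbs ^ 2 := by
    intro s _ s' _
    refine mul_le_mul_of_nonneg_left (pow_le_pow_left₀ (by positivity) (inv_le_ph hR _ _) 2)
      (mul_nonneg (hw _) (hw _))
  refine (Finset.sum_le_sum fun s hs => Finset.sum_le_sum fun s' hs' => h1 s hs s' hs').trans ?_
  apply le_of_eq
  rw [← Finset.sum_fiberwise_of_maps_to (g := fun s => ⌊x s⌋)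
    (fun s hs => Finset.mem_image_of_mem (fun s => ⌊x s⌋) hs)]
  refine Finset.sum_congr rfl fun k _ => ?_
  unfold cel
  have h2 : ∀ s ∈ O.filter (fun s => ⌊x s⌋ = k),
      ∑ s' ∈ Z, w s * w s' * ph R (⌊x s⌋ - ⌊x s'⌋).natAbs ^ 2 =
      ∑ l ∈ Z.image (fun s => ⌊x s⌋), w s * (∑ s' ∈ Z with ⌊x s'⌋ = l, w s') *
        ph R (k - l).natAbs ^ 2 := by
    intro s hs
    have hk := (Finset.mem_filter.1 hs).2
    rw [← Finset.sum_fiberwise_of_maps_to (g := fun s => ⌊x s⌋)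
      (fun s hs => Finset.mem_image_of_mem (fun s => ⌊x s⌋) hs)]
    refine Finset.sum_congr rfl fun l _ => ?_
    rw [Finset.mul_sum, Finset.sum_mul]
    refine Finset.sum_congr rfl fun s' hs' => ?_
    rw [hk, (Finset.mem_filter.1 hs').2]
  rw [Finset.sum_congr rfl h2, Finset.sum_comm]
  refine Finset.sum_congr rfl fun l _ => ?_
  rw [Finset.sum_mul, Finset.sum_mul]

theorem sch : S_SCH := by
  refine ⟨6, by norm_num, fun Z x w hw R hR => ?_⟩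
  refine (group hR Z Z x w hw).trans ?_
  set K := Z.image (fun s => ⌊x s⌋)
  have h1 : ∀ k ∈ K, ∀ l ∈ K, cel Z x w k * cel Z x w l * ph R (k - l).natAbs ^ 2 ≤
      cel Z x w k ^ 2 * ph R (k - l).natAbs ^ 2 / 2 +
        cel Z x w l ^ 2 * ph R (k - l).natAbs ^ 2 / 2 := by
    intro k _ l _
    have h2 := two_mul_le_add_sq (cel Z x w k) (cel Z x w l)
    have h3 := sq_nonneg (ph R (k - l).natAbs)
    nlinarith [mul_le_mul_of_nonneg_right h2 h3]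
  refine (Finset.sum_le_sum fun k hk => Finset.sum_le_sum fun l hl => h1 k hk l hl).trans ?_
  simp only [Finset.sum_add_distrib]
  have h4 : ∑ k ∈ K, ∑ l ∈ K, cel Z x w k ^ 2 * ph R (k - l).natAbs ^ 2 / 2 ≤
      3 * R * ∑ k ∈ K, cel Z x w k ^ 2 := by
    rw [Finset.mul_sum]
    refine Finset.sum_le_sum fun k _ => ?_
    rw [← Finset.sum_div, ← Finset.mul_sum]
    have := sum_int hR K k
    nlinarith [mul_le_mul_of_nonneg_left this (sq_nonneg (cel Z x w k))]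
  have h5 : ∑ k ∈ K, ∑ l ∈ K, cel Z x w l ^ 2 * ph R (k - l).natAbs ^ 2 / 2 ≤
      3 * R * ∑ k ∈ K, cel Z x w k ^ 2 := by
    rw [Finset.sum_comm, Finset.mul_sum]
    refine Finset.sum_le_sum fun l _ => ?_
    rw [← Finset.sum_div, ← Finset.mul_sum]
    have := sum_int' hR K l
    nlinarith [mul_le_mul_of_nonneg_left this (sq_nonneg (cel Z x w l))]
  have h6 : ∑ k ∈ K, (∑ s ∈ Z with ⌊x s⌋ = k, w s) ^ 2 = ∑ k ∈ K, cel Z x w k ^ 2 := rfl
  rw [h6]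
  linarith

theorem scho : S_SCHO := by
  refine ⟨1296, by norm_num, fun Z O x w hw hOZ => ?_⟩
  have h1 : (1 : ℝ) ≤ 1 := le_rfl
  have hg := group h1 O Z x w hw
  simp only [div_one] at hg
  set K := Z.image (fun s => ⌊x s⌋)
  set KO := O.image (fun s => ⌊x s⌋) with hKO
  have hA0 : ∀ k, 0 ≤ cel O x w k := fun k => Finset.sum_nonneg fun s _ => hw s
  have hB0 : ∀ k, 0 ≤ cel Z x w k := fun k => Finset.sum_nonneg fun s _ => hw s
  have hAB : ∀ k, cel O x w k ≤ cel Z x w k := fun k =>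
    Finset.sum_le_sum_of_subset_of_nonneg (Finset.filter_subset_filter _ hOZ)
      (fun s _ _ => hw s)
  have hsub : KO ⊆ K := Finset.image_subset_image hOZ
  set E := ∑ k ∈ KO, ∑ l ∈ K, cel O x w k * cel Z x w l * ph 1 (k - l).natAbs ^ 2 with hE
  have hL0 : 0 ≤ ∑ s ∈ O, ∑ s' ∈ Z, w s * w s' * ((1 + |x s - x s'|)⁻¹) ^ 2 :=
    Finset.sum_nonneg fun s _ => Finset.sum_nonneg fun s' _ =>
      mul_nonneg (mul_nonneg (hw _) (hw _)) (sq_nonneg _)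
  have hCS : E ^ 2 ≤ (∑ p ∈ KO ×ˢ K, (cel O x w p.1 * ph 1 (p.1 - p.2).natAbs) ^ 2) *
      ∑ p ∈ KO ×ˢ K, (cel Z x w p.2 * ph 1 (p.1 - p.2).natAbs) ^ 2 := by
    have := Finset.sum_mul_sq_le_sq_mul_sq (KO ×ˢ K)
      (fun p => cel O x w p.1 * ph 1 (p.1 - p.2).natAbs)
      (fun p => cel Z x w p.2 * ph 1 (p.1 - p.2).natAbs)
    refine le_of_eq_of_le ?_ this
    congr 1
    rw [hE, ← Finset.sum_product']
    refine Finset.sum_congr rfl fun p _ => ?_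
    ring
  have h2 : ∑ p ∈ KO ×ˢ K, (cel O x w p.1 * ph 1 (p.1 - p.2).natAbs) ^ 2 ≤
      6 * ∑ k ∈ KO, cel O x w k ^ 2 := by
    rw [Finset.sum_product, Finset.mul_sum]
    refine Finset.sum_le_sum fun k _ => ?_
    simp only [mul_pow]
    rw [← Finset.mul_sum]
    have := sum_int h1 K k
    nlinarith [mul_le_mul_of_nonneg_left this (sq_nonneg (cel O x w k))]
  have h3 : ∑ p ∈ KO ×ˢ K, (cel Z x w p.2 * ph 1 (p.1 - p.2).natAbs) ^ 2 ≤
      6 * ∑ k ∈ K, cel Z x w k ^ 2 := by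
    rw [Finset.sum_product_right, Finset.mul_sum]
    refine Finset.sum_le_sum fun l _ => ?_
    simp only [mul_pow]
    rw [← Finset.mul_sum]
    have := sum_int' h1 KO l
    nlinarith [mul_le_mul_of_nonneg_left this (sq_nonneg (cel Z x w l))]
  have hA2 : 0 ≤ ∑ k ∈ KO, cel O x w k ^ 2 := Finset.sum_nonneg fun _ _ => sq_nonneg _
  have hB2 : 0 ≤ ∑ k ∈ K, cel Z x w k ^ 2 := Finset.sum_nonneg fun _ _ => sq_nonneg _
  have h4 : E ^ 2 ≤ 36 * ((∑ k ∈ KO, cel O x w k ^ 2) * ∑ k ∈ K, cel Z x w k ^ 2) := by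
    refine hCS.trans ?_
    calc _ ≤ (6 * ∑ k ∈ KO, cel O x w k ^ 2) * (6 * ∑ k ∈ K, cel Z x w k ^ 2) := by
          refine mul_le_mul h2 h3 (Finset.sum_nonneg fun _ _ => sq_nonneg _) (by positivity)
      _ = _ := by ring
  have hcardO : (KO.card : ℝ) ≤ O.card := by exact_mod_cast Finset.card_image_le
  have h5 : (∑ k ∈ KO, cel O x w k ^ 2) ^ 2 ≤ O.card * ∑ k ∈ K, cel Z x w k ^ 4 := by
    have g1 := sq_sum_le_card_mul_sum_sq (s := KO) (f := fun k => cel O x w k ^ 2)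
    have g2 : ∑ k ∈ KO, (cel O x w k ^ 2) ^ 2 ≤ ∑ k ∈ K, cel Z x w k ^ 4 := by
      calc ∑ k ∈ KO, (cel O x w k ^ 2) ^ 2 ≤ ∑ k ∈ KO, cel Z x w k ^ 4 := by
            refine Finset.sum_le_sum fun k _ => ?_
            rw [← pow_mul]
            exact pow_le_pow_left₀ (hA0 k) (hAB k) 4
        _ ≤ _ := Finset.sum_le_sum_of_subset_of_nonneg hsub
            (fun k _ _ => pow_nonneg (hB0 k) 4)
    refine g1.trans ?_
    exact mul_le_mul hcardO g2 (Finset.sum_nonneg fun _ _ => sq_nonneg _) (Nat.cast_nonneg _)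
  have h6 : (∑ k ∈ K, cel Z x w k ^ 2) ^ 2 ≤ K.card * ∑ k ∈ K, cel Z x w k ^ 4 := by
    have g1 := sq_sum_le_card_mul_sum_sq (s := K) (f := fun k => cel Z x w k ^ 2)
    simp only [← pow_mul] at g1
    exact g1
  have hS4 : 0 ≤ ∑ k ∈ K, cel Z x w k ^ 4 := Finset.sum_nonneg fun k _ => pow_nonneg (hB0 k) 4
  have h7 : ∑ k ∈ K, (∑ s ∈ Z with ⌊x s⌋ = k, w s) ^ 4 = ∑ k ∈ K, cel Z x w k ^ 4 := rfl
  rw [h7]
  calc (∑ s ∈ O, ∑ s' ∈ Z, w s * w s' * ((1 + |x s - x s'|)⁻¹) ^ 2) ^ 4 ≤ E ^ 4 :=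
        pow_le_pow_left₀ hL0 hg 4
    _ = (E ^ 2) ^ 2 := by ring
    _ ≤ (36 * ((∑ k ∈ KO, cel O x w k ^ 2) * ∑ k ∈ K, cel Z x w k ^ 2)) ^ 2 :=
        pow_le_pow_left₀ (sq_nonneg _) h4 2
    _ = 1296 * ((∑ k ∈ KO, cel O x w k ^ 2) ^ 2 * (∑ k ∈ K, cel Z x w k ^ 2) ^ 2) := by ring
    _ ≤ 1296 * ((O.card * ∑ k ∈ K, cel Z x w k ^ 4) * (K.card * ∑ k ∈ K, cel Z x w k ^ 4)) := by
        gcongr
    _ = _ := by ring

end Pool.W335.PU
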