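import Pool.Agent.W207.PU.SpecA
import Pool.Agent.W605.PR.Mono

/-! PU-TESTS: test functions of small support by scaling. -/

set_option autoImplicit false

namespace Pool.W335.PU

open Filter Topology Set MeasureTheory W207.PR W207.PU

theorem tst_const {ψ : ℝ → ℝ} (h : Tst ψ) (c : ℝ) : Tst (fun a => c * ψ a) := by
  obtain ⟨h1, h2, μ, hμ0, hμ1, h3⟩ := h
  refine ⟨fun n => contDiff_const.mul (h1 n), fun x => ?_, μ, hμ0, hμ1, fun x hx => ?_⟩
  · rw [h2]
  · rw [h3 x hx, mul_zero]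

theorem dt_const (ψ : ℝ → ℝ) (c x : ℝ) : dt (fun a => c * ψ a) x = c * dt ψ x := by
  unfold dt
  rw [mul_neg, ← integral_const_mul]
  congr 2
  ext α
  ring

theorem tests : S_TESTS := by
  intro hT μ U hμ hU
  obtain ⟨h, hcont, h01, h14, hdec, hψ⟩ := hT U hU
  set s := min μ 1 with hs
  have hs0 : 0 < s := lt_min hμ one_pos
  have hs1 : s ≤ 1 := min_le_right _ _
  have hsμ : s ≤ μ := min_le_left _ _
  obtain ⟨R, hR⟩ : ∃ R, R = 1 / s := ⟨_, rfl⟩
  have hR0 : 0 < R := by rw [hR]; positivity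
  have hR1 : 1 ≤ R := by rw [hR, le_div_iff₀ hs0]; linarith
  refine ⟨fun u => h (u / R), hcont.comp (continuous_id.div_const R), fun u => h01 _, ?_, ?_, ?_⟩
  · intro u hu
    apply h14
    rw [abs_div, abs_of_pos hR0]
    exact (div_le_self (abs_nonneg u) hR1).trans hu
  · intro n
    obtain ⟨K, hK⟩ := hdec n
    refine ⟨R ^ n * K, fun u => ?_⟩
    have h1 := hK (u / R)
    have h2 : 1 + |u| ≤ R * (1 + |u / R|) := by
      rw [abs_div, abs_of_pos hR0]
      have : R * (1 + |u| / R) = R + |u| := by field_simp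
      linarith
    have h3 : (1 + |u|) ^ n ≤ R ^ n * (1 + |u / R|) ^ n := by
      rw [← mul_pow]
      exact pow_le_pow_left₀ (by positivity) h2 n
    calc h (u / R) * (1 + |u|) ^ n ≤ h (u / R) * (R ^ n * (1 + |u / R|) ^ n) :=
          mul_le_mul_of_nonneg_left h3 (h01 _).1
      _ = R ^ n * (h (u / R) * (1 + |u / R|) ^ n) := by ring
      _ ≤ R ^ n * K := mul_le_mul_of_nonneg_left h1 (by positivity)
  · intro k
    obtain ⟨ψ, hψT, hψd⟩ := hψ k
    refine ⟨fun a => R ^ (2 * k + 2) * (R * ψ (R * a)),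
      tst_const (Pool.Agent.W605.PR.tst_scale hψT hR1) _, fun x hx => ?_, fun u => ?_⟩
    · obtain ⟨μ', hμ0', hμ1', h3⟩ := hψT.supp
      show R ^ (2 * k + 2) * (R * ψ (R * x)) = 0
      rw [h3, mul_zero, mul_zero]
      rw [abs_mul, abs_of_pos hR0, hR, one_div, ← div_eq_inv_mul, le_div_iff₀ hs0]
      nlinarith
    · rw [dt_const, Pool.Agent.W605.PR.dt_scale hR1, hψd]
      have : R ≠ 0 := hR0.ne'
      rw [div_pow]
      field_simp
      ring

end Pool.W335.PU
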